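import Pool.Agent.H867.FT.Gen2
import Pool.Agent.H278.FT867KEY

/-!
# Project FT (helper867), task BND: norm inequality in the integral closure of a DVR
-/



namespace Pool.Agent.H447.FT867

open Pool.Agent.H867.FT

theorem bnd : Pool.Agent.H867.FT.S_BND := by
  intro V L W K _ _ _ _ _ _ _ _ _ _ _ _ _ _ _ _ _ _ _ n N M π g ε w h 𝔔 s r
    hfin hπ hε hg hh hw hN hQ hπQ hs hsg
  have : Algebra.IsIntegral V W := IsIntegralClosure.isIntegral_algebra V K
  have : IsDedekindDomain W := IsIntegralClosure.isDedekindDomain V L K W
  have hVK : Function.Injective (algebraMap V K) := by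
    rw [IsScalarTower.algebraMap_eq V L K]
    exact (algebraMap L K).injective.comp (IsFractionRing.injective V L)
  have hVW : Function.Injective (algebraMap V W) := by
    intro x y hxy
    apply hVK
    rw [IsScalarTower.algebraMap_apply V W K, IsScalarTower.algebraMap_apply V W K, hxy]
  have : FaithfulSMul V W := (faithfulSMul_iff_algebraMap_injective V W).2 hVW
  have : Module.IsTorsionFree V W := inferInstance
  have : IsPrincipalIdealRing W := Pool.Agent.H278.FT867.pid V W
  have : Module.Finite V W := IsIntegralClosure.finite V L K W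
  have hWK : Function.Injective (algebraMap W K) := IsFractionRing.injective W K
  have hVL : Function.Injective (algebraMap V L) := IsFractionRing.injective V L
  have hπ0 : algebraMap V W π ≠ 0 := fun h => hπ.ne_zero (hVW (by rw [h, map_zero]))
  -- the prime element
  obtain ⟨q, hq⟩ := (IsPrincipalIdealRing.principal 𝔔).principal
  have hq' : 𝔔 = Ideal.span {q} := hq
  have hqπ : q ∣ algebraMap V W π := by
    rw [hq', Ideal.mem_span_singleton] at hπQ
    exact hπQ
  have hq0 : q ≠ 0 := by
    rintro rfl
    exact hπ0 (zero_dvd_iff.1 hqπ)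
  have hqp : Prime q := (Ideal.span_singleton_prime hq0).1 (hq' ▸ hQ)
  have hqs : ¬ q ∣ s := by
    rw [hq', Ideal.mem_span_singleton] at hs
    exact hs
  -- the norm of the prime element
  have hνq : π ∣ Algebra.intNorm V W q := by
    rw [← Ideal.mem_span_singleton, ← hπ.maximalIdeal_eq, IsLocalRing.mem_maximalIdeal]
    intro hu
    have h1 : q ∣ algebraMap V W (Algebra.intNorm V W q) := Algebra.dvd_algebraMap_intNorm_self _ _ q
    exact hqp.not_isUnit (isUnit_of_dvd_unit h1 (hu.map _))
  obtain ⟨γ, u, hu⟩ := IsDiscreteValuationRing.eq_unit_mul_pow_irreducible hg hπ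
  -- the equation of the norms
  have hnormV : ∀ v : V, Algebra.norm L (algebraMap V K v) = algebraMap V L (v ^ 3) := by
    intro v
    rw [IsScalarTower.algebraMap_apply V L K, Algebra.norm_algebraMap, hfin, map_pow]
  have h1 : Algebra.intNorm V W w * (ε * g * π ^ n) * (π ^ N) ^ 3 = (π ^ M) ^ 3 := by
    apply hVL
    have h2 := congrArg (Algebra.norm L) hw
    rw [map_mul, map_mul, ← map_pow, ← map_pow, hnormV, hnormV, hN,
      ← Algebra.algebraMap_intNorm (A := V) (K := L) (L := K) (B := W) w, ← map_mul, ← map_mul] at h2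
    exact h2
  -- divisibility of `w`
  have h2 : q ^ (M - N - γ) ∣ w := by
    rcases Nat.lt_or_ge M (N + γ) with hlt | hge
    · have : M - N - γ = 0 := by omega
      rw [this, pow_zero]
      exact one_dvd _
    · have hM : M = (M - N - γ) + (γ + N) := by omega
      set m := M - N - γ with hm
      have h3 : s * algebraMap V W (u : V) * w * algebraMap V W π ^ (γ + N) =
          r * algebraMap V W π ^ m * algebraMap V W π ^ (γ + N) := by
        apply hWK
        have e1 : algebraMap W K s * algebraMap V K g * (algebraMap W K w *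
            algebraMap V K π ^ N) = algebraMap W K r * algebraMap V K π ^ M := by
          rw [hsg, ← hw]
          ring
        have e2 : r * algebraMap V W π ^ m * algebraMap V W π ^ (γ + N) =
            r * algebraMap V W π ^ M := by
          rw [mul_assoc, ← pow_add, ← hM]
        rw [e2]
        simp only [map_mul, map_pow, ← IsScalarTower.algebraMap_apply V W K]
        rw [← e1, hu, map_mul, map_pow, pow_add]
        ring
      have h4 : s * algebraMap V W (u : V) * w = r * algebraMap V W π ^ m :=
        mul_right_cancel₀ (pow_ne_zero _ hπ0) h3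
      have h5 : q ^ m ∣ s * algebraMap V W (u : V) * w := by
        rw [h4]
        exact Dvd.dvd.mul_left (pow_dvd_pow_of_dvd hqπ m) r
      refine hqp.pow_dvd_of_dvd_mul_left m ?_ h5
      intro h6
      rcases hqp.dvd_or_dvd h6 with h7 | h7
      · exact hqs h7
      · exact hqp.not_isUnit (isUnit_of_dvd_unit h7 (u.isUnit.map _))
  have h3 : π ^ (M - N - γ) ∣ Algebra.intNorm V W w := by
    obtain ⟨w', rfl⟩ := h2
    rw [map_mul, map_pow]
    exact Dvd.dvd.mul_right (pow_dvd_pow_of_dvd hνq _) _
  obtain ⟨t, ht⟩ := h3
  have h4 : π ^ (M - N - γ + γ + n + N * 3) ∣ π ^ (M * 3) := by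
    refine ⟨t * ε * (u : V), ?_⟩
    rw [pow_mul π M 3, ← h1, ht, hu, pow_add, pow_add, pow_add, pow_mul π N 3]
    ring
  have h5 := (pow_dvd_pow_iff hπ.ne_zero hπ.not_isUnit).1 h4
  omega

end Pool.Agent.H447.FT867
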